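import Mathlib
import Pool.Agent.N408.IB.Stm

/-!
# Project IB, leaf SUP1: local midpoint semiconvexity gives supporting parabolas
-/

set_option autoImplicit false

namespace Pool.Agent.N665.IB.SUP1

open Set

/-- a continuous, locally midpoint convex function lies below its chords -/
theorem chord {g : ℝ → ℝ} (hg : Continuous g)
    (hm : ∀ x δ, |δ| ≤ 1 / 10 → 0 ≤ g (x + δ) + g (x - δ) - 2 * g x) {u v : ℝ} (huv : u < v)
    {y : ℝ} (hy : y ∈ Icc u v) : g y ≤ g u + (g v - g u) / (v - u) * (y - u) := by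
  by_contra hcon
  push Not at hcon
  obtain ⟨s, hs⟩ : ∃ s : ℝ, s = (g v - g u) / (v - u) := ⟨_, rfl⟩
  rw [← hs] at hcon
  obtain ⟨G, hG⟩ : ∃ G : ℝ → ℝ, G = fun x => g x - (g u + s * (x - u)) := ⟨_, rfl⟩
  have hGc : Continuous G := by
    rw [hG]
    fun_prop
  have hGu : G u = 0 := by rw [hG]; simp
  have hGv : G v = 0 := by
    rw [hG]
    simp only
    rw [hs, div_mul_cancel₀ _ (by linarith)]
    ring
  have hGy : 0 < G y := by rw [hG]; simp only; linarith
  have hGm : ∀ x δ, |δ| ≤ 1 / 10 → 0 ≤ G (x + δ) + G (x - δ) - 2 * G x := by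
    intro x δ h
    have h1 := hm x δ h
    rw [hG]
    simp only
    have h2 : s * (x + δ - u) + s * (x - δ - u) = 2 * (s * (x - u)) := by ring
    linarith
  -- the maximum
  obtain ⟨z, hz, hzmax⟩ := (isCompact_Icc (a := u) (b := v)).exists_isMaxOn ⟨y, hy⟩ hGc.continuousOn
  have hzm : ∀ x ∈ Icc u v, G x ≤ G z := fun x hx => hzmax hx
  have hMpos : 0 < G z := lt_of_lt_of_le hGy (hzm y hy)
  -- the first point where it is attained
  have hK : IsCompact (Icc u v ∩ G ⁻¹' {G z}) :=
    (isCompact_Icc).inter_right (isClosed_singleton.preimage hGc)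
  obtain ⟨x₀, ⟨hx1, hx2⟩, hx3⟩ := hK.exists_isLeast ⟨z, hz, rfl⟩
  have hx2' : G x₀ = G z := hx2
  have hu0 : u < x₀ := by
    rcases eq_or_lt_of_le hx1.1 with h | h
    · rw [← h, hGu] at hx2'
      linarith
    · exact h
  have h0v : x₀ < v := by
    rcases eq_or_lt_of_le hx1.2 with h | h
    · rw [h, hGv] at hx2'
      linarith
    · exact h
  obtain ⟨d, hd⟩ : ∃ d : ℝ, d = min (1 / 10) (min (x₀ - u) (v - x₀)) := ⟨_, rfl⟩
  have hd0 : 0 < d := by
    rw [hd]
    exact lt_min (by norm_num) (lt_min (by linarith) (by linarith))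
  have hd1 : d ≤ 1 / 10 := by rw [hd]; exact min_le_left _ _
  have hd2 : d ≤ x₀ - u := by rw [hd]; exact (min_le_right _ _).trans (min_le_left _ _)
  have hd3 : d ≤ v - x₀ := by rw [hd]; exact (min_le_right _ _).trans (min_le_right _ _)
  have h1 := hGm x₀ d (by rw [abs_of_pos hd0]; exact hd1)
  have h2 : G (x₀ + d) ≤ G z := hzm _ ⟨by linarith, by linarith⟩
  have h3 : G (x₀ - d) ≤ G z := hzm _ ⟨by linarith, by linarith⟩
  have h4 : G (x₀ - d) ≠ G z := by
    intro h
    have h5 : x₀ ≤ x₀ - d := hx3 ⟨⟨by linarith, by linarith⟩, h⟩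
    linarith
  have h5 : G (x₀ - d) < G z := lt_of_le_of_ne h3 h4
  linarith

theorem convex_of {g : ℝ → ℝ} (hg : Continuous g)
    (hm : ∀ x δ, |δ| ≤ 1 / 10 → 0 ≤ g (x + δ) + g (x - δ) - 2 * g x) : ConvexOn ℝ univ g := by
  apply LinearOrder.convexOn_of_lt convex_univ
  intro x _ y _ hxy a b ha hb hab
  simp only [smul_eq_mul]
  have hmem : a * x + b * y ∈ Icc x y := by
    have hb' : b = 1 - a := by linarith
    subst hb'
    constructor <;> nlinarith
  have h := chord hg hm hxy hmem
  have e : (g y - g x) / (y - x) * (a * x + b * y - x) = b * (g y - g x) := by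
    have h1 : a * x + b * y - x = b * (y - x) := by
      have ha' : a = 1 - b := by linarith
      subst ha'
      ring
    have h2 : y - x ≠ 0 := by linarith
    rw [h1]
    field_simp
  rw [e] at h
  have ha' : a = 1 - b := by linarith
  subst ha'
  linarith

theorem t : IB408.S_SUP1 := by
  intro f C hC hf hmid x
  obtain ⟨g, hg⟩ : ∃ g : ℝ → ℝ, g = fun x => f x + C / 2 * x ^ 2 := ⟨_, rfl⟩
  have hgc : Continuous g := by
    rw [hg]
    fun_prop
  have hgm : ∀ x δ, |δ| ≤ 1 / 10 → 0 ≤ g (x + δ) + g (x - δ) - 2 * g x := by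
    intro x δ h
    have h1 := hmid x δ h
    rw [hg]
    simp only
    have e : C / 2 * (x + δ) ^ 2 + C / 2 * (x - δ) ^ 2 - 2 * (C / 2 * x ^ 2) = C * δ ^ 2 := by ring
    linarith
  have hconv := convex_of hgc hgm
  have hint : x ∈ interior (univ : Set ℝ) := by simp
  obtain ⟨m, hm⟩ : ∃ m : ℝ, m = derivWithin g (Ioi x) x := ⟨_, rfl⟩
  have hsup : ∀ d, g x + m * d ≤ g (x + d) := by
    intro d
    rcases lt_trichotomy d 0 with hd | hd | hd
    · have h1 := hconv.slope_le_leftDeriv_of_mem_interior (x := x + d) (y := x) (mem_univ _) hint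
        (by linarith)
      have h2 := hconv.leftDeriv_le_rightDeriv_of_mem_interior hint
      have h3 := h1.trans h2
      rw [← hm, slope_def_field] at h3
      have h4 : x - (x + d) = -d := by ring
      rw [h4, div_le_iff₀ (by linarith)] at h3
      linarith
    · subst hd
      simp
    · have h1 := hconv.rightDeriv_le_slope_of_mem_interior hint (mem_univ (x + d)) (by linarith)
      rw [← hm, slope_def_field] at h1
      have h4 : x + d - x = d := by ring
      rw [h4, le_div_iff₀ hd] at h1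
      linarith
  refine ⟨m - C * x, fun d => ?_⟩
  have h := hsup d
  rw [hg] at h
  simp only at h
  have e : C / 2 * (x + d) ^ 2 = C / 2 * x ^ 2 + C * x * d + C / 2 * d ^ 2 := by ring
  linarith [e]

end Pool.Agent.N665.IB.SUP1
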